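import Mathlib
import Pool.Agent.PDX.Stmts
import Pool.Agent.PDM.Asm

/-!
# PDX, row FIN
-/

set_option autoImplicit false

namespace Pool.Agent.PDX.H94

open Pool.Agent.PDN Pool.Agent.PDM Pool.Agent.PDX

/-- the positions depending on `y` -/
def isY {M : ℕ} : Bas M ⊕ Pos M → Prop :=
  Sum.elim (fun _ => False) (fun p => p.2 = 2 ∨ p.2 = 3)

theorem wv_y (M : ℕ) (x y : Finset (Fin M)) (p : Pos M) (h : p.2 = 2 ∨ p.2 = 3) :
    wv M x y p = wv M ∅ y p := by
  have : c1 M x y p = c1 M ∅ y p := by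
    unfold c1
    rcases h with h | h <;> simp [h]
  unfold wv trp
  simp only [this]

theorem wv_x (M : ℕ) (x y : Finset (Fin M)) (p : Pos M) (h : ¬ (p.2 = 2 ∨ p.2 = 3)) :
    wv M x y p = wv M x ∅ p := by
  have : c1 M x y p = c1 M x ∅ p := by
    unfold c1
    rw [not_or] at h
    simp [h.1, h.2]
  unfold wv trp
  simp only [this]

open Classical in
theorem elim_dec (M : ℕ) (x y : Finset (Fin M)) (q : Bas M ⊕ Pos M) :
    Sum.elim (gv M) (wv M x y) q = if isY q then Sum.elim (gv M) (wv M ∅ y) q else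
      Sum.elim (gv M) (wv M x ∅) q := by
  rcases q with b | p
  · rw [if_neg (fun h : isY (Sum.inl b : Bas M ⊕ Pos M) => h), Sum.elim_inl, Sum.elim_inl]
  · rw [Sum.elim_inr, Sum.elim_inr, Sum.elim_inr]
    by_cases hp : p.2 = 2 ∨ p.2 = 3
    · rw [if_pos (show isY (Sum.inr p : Bas M ⊕ Pos M) from hp)]
      exact wv_y M x y p hp
    · rw [if_neg (show ¬ isY (Sum.inr p : Bas M ⊕ Pos M) from hp)]
      exact wv_x M x y p hp

open Classical in
theorem fin (mt1 : Mt1Stmt) (mt2 : Mt2Stmt) (seqS : SeqStmt) (ora : OraStmt) (orb : OrbStmt)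
    (srt : SrtStmt) (cmb : CmbStmt) (main : MainStmt) : ResStmt := by
  intro m
  obtain ⟨M, hM⟩ : ∃ M, M = 2 * m := ⟨_, rfl⟩
  obtain ⟨n, hn⟩ : ∃ n, n = Fintype.card (Bas M ⊕ Pos M) := ⟨_, rfl⟩
  obtain ⟨e, he⟩ := srt (Bas M) (Pos M) (Finset (Fin M) × Finset (Fin M)) (gv M)
    (fun z => wv M z.1 z.2) (∅, ∅) (fun z p p' h => ora M z.1 z.2 p p' h)
    (fun z p b => orb M z.1 z.2 p b) n hn
  obtain ⟨v, hv⟩ : ∃ v : Finset (Fin M) → Finset (Fin M) → Fin n → ℕ,
      ∀ x y j, v x y j = Sum.elim (gv M) (wv M x y) (e j) := ⟨_, fun _ _ _ => rfl⟩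
  have hvm : ∀ x y, Finset.univ.val.map (v x y) = seqm (inst M x y) := by
    intro x y
    rw [seqS M x y, ← Multiset.map_univ_val_equiv e, Multiset.map_map]
    exact Multiset.map_congr rfl fun j _ => hv x y j
  have hcard : ∀ x y, (seqm (inst M x y)).card = n := by
    intro x y
    rw [← hvm x y, Multiset.card_map]
    simp
  have hsum : ∀ x y, ∑ j, v x y j + 12 = 6 * n := by
    intro x y
    have h1 := (main (4 * M + 1) (inst M x y)).2.1
    rw [hcard x y, ← hvm x y] at h1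
    exact h1
  have hanti : ∀ x y, Antitone (v x y) := by
    intro x y i j hij
    have := he (x, y) hij
    rw [hv, hv]
    exact this
  refine ⟨n, ?_, ?_, ?_⟩
  · rw [hn, Fintype.card_sum, Fintype.card_prod, Fintype.card_fin, Fintype.card_fin]
    omega
  · have h1 := (main (4 * M + 1) (inst M ∅ ∅)).2.2.1
    rw [hcard] at h1
    have h2 : 4 * M + 1 + 1 = 8 * m + 2 := by omega
    rw [h2] at h1
    exact h1
  · intro K s φ G h
    -- the functions
    have hdec : ∀ x y j, v x y j = if isY (e j) then v ∅ y j else v x ∅ j := by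
      intro x y j
      rw [hv x y j, hv ∅ y j, hv x ∅ j]
      exact elim_dec M x y (e j)
    have hab : ∀ k l x y, (∑ j, (if isY (e j) then (0 : ℝ) else φ k l j (v x ∅ j))) +
        ∑ j, (if isY (e j) then φ k l j (v ∅ y j) else 0) = ∑ j, φ k l j (v x y j) := by
      intro k l x y
      rw [← Finset.sum_add_distrib]
      refine Finset.sum_congr rfl fun j _ => ?_
      rw [hdec x y j]
      split_ifs
      · rw [zero_add]
      · rw [add_zero]
    have hiff : ∀ x y : Finset (Fin M), (∃ i, i ∈ x ∧ i ∈ y) ↔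
        ∀ k, G k {l | 0 ≤ (∑ j, (if isY (e j) then (0 : ℝ) else φ k l j (v x ∅ j))) +
          ∑ j, (if isY (e j) then φ k l j (v ∅ y j) else 0)} := by
      intro x y
      have h1 := h (v x y) (hanti x y) (hsum x y)
      rw [hvm x y, (main (4 * M + 1) (inst M x y)).1] at h1
      have h2 : (∃ i, i ∈ x ∧ i ∈ y) ↔ Matching (inst M x y) := ⟨mt1 M x y, mt2 M x y⟩
      rw [h2, h1]
      refine forall_congr' fun k => ?_
      have h3 : {l | 0 ≤ ∑ j, φ k l j (v x y j)} =
          {l | 0 ≤ (∑ j, (if isY (e j) then (0 : ℝ) else φ k l j (v x ∅ j))) +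
            ∑ j, (if isY (e j) then φ k l j (v ∅ y j) else 0)} := by
        ext l
        rw [Set.mem_ofPred_eq, Set.mem_ofPred_eq, hab k l x y]
      rw [h3]
    subst hM
    exact cmb m K s (fun k l x => ∑ j, (if isY (e j) then (0 : ℝ) else φ k l j (v x ∅ j)))
      (fun k l y => ∑ j, (if isY (e j) then φ k l j (v ∅ y j) else 0)) G hiff

end Pool.Agent.PDX.H94
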