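import Mathlib
import Pool.Agent.PDX.Stmts
import Pool.Agent.PDM.Asm
import Pool.Agent.Helper94_PDX.Fin
import Pool.Agent.Helper72_PDM.SU3

/-!
# PDX, row FN2: all lengths
-/

set_option autoImplicit false

namespace Pool.Agent.PDX.H94

open Pool.Agent.PDN Pool.Agent.PDM Pool.Agent.PDX

/-- the positions depending on `y` -/
def isY2 {β : Type} {M : ℕ} : β ⊕ Pos M → Prop :=
  Sum.elim (fun _ => False) (fun p => p.2 = 2 ∨ p.2 = 3)

open Classical in
theorem elim_dec2 {β : Type} (g : β → ℕ) (M : ℕ) (x y : Finset (Fin M)) (q : β ⊕ Pos M) :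
    Sum.elim g (wv M x y) q = if isY2 q then Sum.elim g (wv M ∅ y) q else
      Sum.elim g (wv M x ∅) q := by
  rcases q with b | p
  · rw [if_neg (fun h : isY2 (Sum.inl b : β ⊕ Pos M) => h), Sum.elim_inl, Sum.elim_inl]
  · rw [Sum.elim_inr, Sum.elim_inr, Sum.elim_inr]
    by_cases hp : p.2 = 2 ∨ p.2 = 3
    · rw [if_pos (show isY2 (Sum.inr p : β ⊕ Pos M) from hp)]
      exact wv_y M x y p hp
    · rw [if_neg (show ¬ isY2 (Sum.inr p : β ⊕ Pos M) from hp)]
      exact wv_x M x y p hp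

open Classical in
/-- the core of the proof -/
theorem core (mt1 : Mt1Stmt) (mt2 : Mt2Stmt) (srt : SrtStmt) (cmb : CmbStmt) (m n : ℕ) (β : Type)
    [Fintype β] (g : β → ℕ) (hn : n = Fintype.card (β ⊕ Pos (2 * m)))
    (ha : ∀ (x y : Finset (Fin (2 * m))) (p p' : Pos (2 * m)),
      wv (2 * m) ∅ ∅ p ≤ wv (2 * m) ∅ ∅ p' → wv (2 * m) x y p ≤ wv (2 * m) x y p')
    (hb : ∀ (x y : Finset (Fin (2 * m))) (p : Pos (2 * m)) (b : β),
      (g b ≤ wv (2 * m) ∅ ∅ p → g b ≤ wv (2 * m) x y p) ∧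
        (wv (2 * m) ∅ ∅ p ≤ g b → wv (2 * m) x y p ≤ g b))
    (R : Multiset ℕ → Prop) (Q : (Fin n → ℕ) → Prop)
    (hR : ∀ x y, R (Finset.univ.val.map (Sum.elim g (wv (2 * m) x y))) ↔
      Matching (inst (2 * m) x y))
    (hQ : ∀ (v : Fin n → ℕ) x y,
      Finset.univ.val.map v = Finset.univ.val.map (Sum.elim g (wv (2 * m) x y)) → Q v)
    (K s : ℕ) (φ : Fin K → Fin s → Fin n → ℕ → ℝ) (G : Fin K → Set (Fin s) → Prop)
    (h : ∀ v : Fin n → ℕ, Antitone v → Q v →
      (R (Finset.univ.val.map v) ↔ ∀ k, G k {l | 0 ≤ ∑ i, φ k l i (v i)})) :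
    9 ^ m ≤ 2 * 8 ^ m * (4 * m + 3) ^ s * K := by
  obtain ⟨e, he⟩ := srt β (Pos (2 * m)) (Finset (Fin (2 * m)) × Finset (Fin (2 * m))) g
    (fun z => wv (2 * m) z.1 z.2) (∅, ∅) (fun z p p' h => ha z.1 z.2 p p' h)
    (fun z p b => hb z.1 z.2 p b) n hn
  obtain ⟨v, hv⟩ : ∃ v : Finset (Fin (2 * m)) → Finset (Fin (2 * m)) → Fin n → ℕ,
      ∀ x y j, v x y j = Sum.elim g (wv (2 * m) x y) (e j) := ⟨_, fun _ _ _ => rfl⟩
  have hvm : ∀ x y, Finset.univ.val.map (v x y) =
      Finset.univ.val.map (Sum.elim g (wv (2 * m) x y)) := by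
    intro x y
    rw [← Multiset.map_univ_val_equiv e, Multiset.map_map]
    exact Multiset.map_congr rfl fun j _ => hv x y j
  have hanti : ∀ x y, Antitone (v x y) := by
    intro x y i j hij
    have := he (x, y) hij
    rw [hv, hv]
    exact this
  have hdec : ∀ x y j, v x y j = if isY2 (e j) then v ∅ y j else v x ∅ j := by
    intro x y j
    rw [hv x y j, hv ∅ y j, hv x ∅ j]
    exact elim_dec2 g (2 * m) x y (e j)
  have hab : ∀ k l x y, (∑ j, (if isY2 (e j) then (0 : ℝ) else φ k l j (v x ∅ j))) +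
      ∑ j, (if isY2 (e j) then φ k l j (v ∅ y j) else 0) = ∑ j, φ k l j (v x y j) := by
    intro k l x y
    rw [← Finset.sum_add_distrib]
    refine Finset.sum_congr rfl fun j _ => ?_
    rw [hdec x y j]
    split_ifs
    · rw [zero_add]
    · rw [add_zero]
  refine cmb m K s (fun k l x => ∑ j, (if isY2 (e j) then (0 : ℝ) else φ k l j (v x ∅ j)))
      (fun k l y => ∑ j, (if isY2 (e j) then φ k l j (v ∅ y j) else 0)) G ?_
  intro x y
  have h1 := h (v x y) (hanti x y) (hQ _ x y (hvm x y))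
  rw [hvm x y, hR x y] at h1
  have h2 : (∃ i, i ∈ x ∧ i ∈ y) ↔ Matching (inst (2 * m) x y) :=
    ⟨mt1 (2 * m) x y, mt2 (2 * m) x y⟩
  rw [h2, h1]
  refine forall_congr' fun k => ?_
  have h3 : {l | 0 ≤ ∑ j, φ k l j (v x y j)} =
      {l | 0 ≤ (∑ j, (if isY2 (e j) then (0 : ℝ) else φ k l j (v x ∅ j))) +
        ∑ j, (if isY2 (e j) then φ k l j (v ∅ y j) else 0)} := by
    ext l
    rw [Set.mem_ofPred_eq, Set.mem_ofPred_eq, hab k l x y]
  rw [h3]

/-- the entries of the sequence are not zero -/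
theorem seqm_ne (num : NumStmt) (t : ℕ) (τ : Ins t) : ∀ x ∈ seqm τ, x ≠ 0 := by
  obtain ⟨-, -, -, hd, -⟩ := num t τ
  intro x hx
  unfold seqm at hx
  rw [Multiset.mem_add, Multiset.mem_add] at hx
  rcases hx with (hx | hx) | hx
  · obtain ⟨v, -, rfl⟩ := Multiset.mem_map.1 hx
    have := hd v
    split_ifs <;> omega
  · rw [Multiset.eq_of_mem_replicate hx]
    norm_num
  · rw [Multiset.eq_of_mem_replicate hx]
    norm_num

theorem count_ne {n : ℕ} (v : Fin n → ℕ) (s : Multiset ℕ) (z : ℕ) (hs : ∀ x ∈ s, x ≠ 0)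
    (h : Finset.univ.val.map v = s + Multiset.replicate z 0) :
    (Finset.univ.filter (fun i => v i ≠ 0)).card = s.card := by
  have h1 : (Finset.univ.filter (fun i => v i ≠ 0)).card =
      ((Finset.univ.val.map v).filter (fun x => x ≠ 0)).card := by
    rw [Multiset.filter_map, Multiset.card_map]
    rfl
  rw [h1, h, Multiset.filter_add, Multiset.card_add, Multiset.filter_eq_self.2 hs,
    Multiset.filter_eq_nil.2, Multiset.card_zero, add_zero]
  intro x hx
  rw [Multiset.eq_of_mem_replicate hx]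
  simp

/-- FN2 -/
theorem fn2 (mt1 : Mt1Stmt) (mt2 : Mt2Stmt) (seqS : SeqStmt) (ora : OraStmt) (orb : OrbStmt)
    (srt : SrtStmt) (cmb : CmbStmt) (zro : ZroStmt) (num : NumStmt) (main : MainStmt) :
    Rs2Stmt := by
  intro m n hn
  have hN : Fintype.card (Bas (2 * m) ⊕ Pos (2 * m)) ≤ n := by
    have h1 := (main (4 * (2 * m) + 1) (inst (2 * m) ∅ ∅)).2.2.1
    rw [seqS (2 * m) ∅ ∅, Multiset.card_map] at h1
    have h2 : 4 * (2 * m) + 1 + 1 = 8 * m + 2 := by omega
    rw [h2] at h1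
    have h3 : (Finset.univ : Finset (Bas (2 * m) ⊕ Pos (2 * m))).val.card =
      Fintype.card (Bas (2 * m) ⊕ Pos (2 * m)) := rfl
    rw [h3] at h1
    exact h1.trans hn
  obtain ⟨z, hz⟩ := Nat.exists_eq_add_of_le hN
  have hmap : ∀ x y, Finset.univ.val.map (Sum.elim (Sum.elim (gv (2 * m))
      (fun _ : Fin z => 0)) (wv (2 * m) x y)) =
      seqm (inst (2 * m) x y) + Multiset.replicate z 0 := by
    intro x y
    rw [seqS (2 * m) x y]
    have k1 := Pool.Agent.PDM.H72.map_univ_sum (Sum.elim (gv (2 * m)) (wv (2 * m) x y))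
    have k2 := Pool.Agent.PDM.H72.map_univ_sum (Sum.elim (Sum.elim (gv (2 * m))
      (fun _ : Fin z => 0)) (wv (2 * m) x y))
    have k3 := Pool.Agent.PDM.H72.map_univ_sum (Sum.elim (gv (2 * m)) (fun _ : Fin z => 0))
    simp only [Sum.elim_inl, Sum.elim_inr] at k1 k2 k3
    rw [k1, k2]
    have k4 : (fun a => Sum.elim (gv (2 * m)) (fun _ : Fin z => 0) a) =
      Sum.elim (gv (2 * m)) (fun _ : Fin z => 0) := rfl
    rw [k4, k3]
    have h1 : (Finset.univ : Finset (Fin z)).val.map (fun _ => 0) = Multiset.replicate z 0 := by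
      rw [Multiset.map_const']
      simp
    rw [h1]
    ac_rfl
  have hpos : ∀ x y (p : Pos (2 * m)), 0 < wv (2 * m) x y p := by
    intro x y p
    have h1 : wv (2 * m) x y p ∈ seqm (inst (2 * m) x y) := by
      rw [seqS (2 * m) x y]
      exact Multiset.mem_map.2 ⟨Sum.inr p, Finset.mem_univ _, rfl⟩
    exact Nat.pos_of_ne_zero (seqm_ne num _ _ _ h1)
  intro K s φ G h
  refine core mt1 mt2 srt cmb m n (Bas (2 * m) ⊕ Fin z)
    (Sum.elim (gv (2 * m)) (fun _ : Fin z => 0)) ?_ (ora (2 * m)) ?_ Realizable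
    (fun v => ∑ i, v i + 12 = 6 * (Finset.univ.filter (fun i => v i ≠ 0)).card) ?_ ?_ K s φ G h
  · rw [hz, Fintype.card_sum (α := Bas (2 * m)) (β := Pos (2 * m)),
      Fintype.card_sum (α := Bas (2 * m) ⊕ Fin z) (β := Pos (2 * m)),
      Fintype.card_sum (α := Bas (2 * m)) (β := Fin z), Fintype.card_fin z]
    ring
  · intro x y p b
    rcases b with b | b
    · exact orb (2 * m) x y p b
    · refine ⟨fun _ => Nat.zero_le _, fun h => ?_⟩
      have := hpos ∅ ∅ p
      simp only [Sum.elim_inr] at h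
      omega
  · intro x y
    rw [hmap x y, zro _ z (seqm_ne num _ _), (main _ (inst (2 * m) x y)).1]
  · intro v x y hvm
    rw [hmap x y] at hvm
    have h1 := count_ne v _ z (seqm_ne num _ _) hvm
    have h2 := (main _ (inst (2 * m) x y)).2.1
    have h3 : ∑ i, v i = (seqm (inst (2 * m) x y)).sum := by
      have : ∑ i, v i = (Finset.univ.val.map v).sum := rfl
      rw [this, hvm, Multiset.sum_add, Multiset.sum_replicate, smul_zero, add_zero]
    rw [h1, h3]
    exact h2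

end Pool.Agent.PDX.H94
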