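import Mathlib
import Pool.Agent.PDX.Stmts
import Pool.Agent.Helper72_PDM.SU3

/-!
# PDX, row SEQ
-/

set_option autoImplicit false

namespace Pool.Agent.PDX.H94

open Pool.Agent.PDN Pool.Agent.PDM Pool.Agent.PDX Pool.Agent.PDM.H72

theorem map_const_fin (n c : ℕ) :
    (Finset.univ : Finset (Fin n)).val.map (fun _ => c) = Multiset.replicate n c := by
  rw [Multiset.map_const']
  simp

theorem seq (inv : InvStmt) : SeqStmt := by
  intro M x y
  obtain ⟨hinj, hcard, hsC⟩ := inv M x y
  have hsc : sc (inst M x y) = sc (ins0 M) := by unfold sc; rw [hcard]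
  have hvZ : vZ (inst M x y) = vZ (ins0 M) := by unfold vZ; rw [hsC]
  have hn4 : n4 (inst M x y) = n4 (ins0 M) := by unfold n4; rw [hsc, hsC, hcard]
  have hn3 : n3 (inst M x y) = n3 (ins0 M) := by unfold n3; rw [hn4, hcard]
  -- the triples
  have htr : (Finset.univ : Finset ↥(inst M x y)).val.map
      (fun p => 2 * dgr (Sum.inr (Sum.inl p) : Big (inst M x y)) -
        (if mrk (Sum.inr (Sum.inl p) : Big (inst M x y)) then 1 else 0)) =
      (Finset.univ : Finset (Pos M)).val.map (wv M x y) := by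
    have hb : Function.Bijective (fun p : Pos M => (⟨trp M x y p, by
        unfold inst
        exact Finset.mem_image_of_mem _ (Finset.mem_univ _)⟩ : ↥(inst M x y))) := by
      constructor
      · intro p p' h
        exact hinj (congrArg Subtype.val h)
      · rintro ⟨q, hq⟩
        unfold inst at hq
        obtain ⟨p, -, hp⟩ := Finset.mem_image.1 hq
        exact ⟨p, Subtype.ext hp⟩
    rw [← Multiset.map_univ_val_equiv (Equiv.ofBijective _ hb), Multiset.map_map]
    refine Multiset.map_congr rfl fun p _ => ?_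
    show 2 * (sc (inst M x y) * vC (trp M x y p) - 10) - 0 = wv M x y p
    rw [hsc, Nat.sub_zero]
    rfl
  have e1 : (Finset.univ : Finset (Fin 3 × Fin (4 * M + 1))).val.map
      (fun v => 2 * dgr (Sum.inl v : Big (inst M x y)) -
        (if mrk (Sum.inl v : Big (inst M x y)) then 1 else 0)) =
      (Finset.univ : Finset (Fin 3 × Fin (4 * M + 1))).val.map
        (fun v => gv M (Sum.inl v)) := by
    refine Multiset.map_congr rfl fun v _ => ?_
    show 2 * (sc (inst M x y) * vA v.1 v.2) - (if decide (v.1 ≠ 2) = true then 1 else 0) =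
      2 * (sc (ins0 M) * vA v.1 v.2) - (if v.1 ≠ 2 then 1 else 0)
    rw [hsc]
    simp
  have e2 : (Finset.univ : Finset (Fin 2 × Bool)).val.map
      (fun v => 2 * dgr (Sum.inr (Sum.inr (Sum.inl v)) : Big (inst M x y)) -
        (if mrk (Sum.inr (Sum.inr (Sum.inl v)) : Big (inst M x y)) then 1 else 0)) =
      (Finset.univ : Finset (Fin 2 × Bool)).val.map
        (fun v => gv M (Sum.inr (Sum.inl v))) := by
    refine Multiset.map_congr rfl fun v _ => ?_
    show 2 * (sc (inst M x y) * (if v.1 = 0 then 1 else 3) + (if v.2 then 3 else 0)) -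
      (if (!v.2) = true then 1 else 0) =
      2 * (sc (ins0 M) * (if v.1 = 0 then 1 else 3) + (if v.2 then 3 else 0)) -
        (if v.2 then 0 else 1)
    rw [hsc]
    cases v.2 <;> rfl
  have e3 : (Finset.univ : Finset (Fin (4 * (4 * M + 1) + 4))).val.map
      (fun v => 2 * dgr (Sum.inr (Sum.inr (Sum.inr (Sum.inl v))) : Big (inst M x y)) -
        (if mrk (Sum.inr (Sum.inr (Sum.inr (Sum.inl v))) : Big (inst M x y)) then 1 else 0)) =
      (Finset.univ : Finset (Fin (4 * (4 * M + 1) + 4))).val.map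
        (fun v => gv M (Sum.inr (Sum.inr (Sum.inl v)))) := by
    refine Multiset.map_congr rfl fun v _ => ?_
    show 2 * (sc (inst M x y) * vD (4 * M + 1)) - 1 = 2 * (sc (ins0 M) * vD (4 * M + 1)) - 1
    rw [hsc]
  have e4 : (Finset.univ : Finset Unit).val.map
      (fun v => 2 * dgr (Sum.inr (Sum.inr (Sum.inr (Sum.inr v))) : Big (inst M x y)) -
        (if mrk (Sum.inr (Sum.inr (Sum.inr (Sum.inr v))) : Big (inst M x y)) then 1 else 0)) =
      (Finset.univ : Finset Unit).val.map
        (fun v => gv M (Sum.inr (Sum.inr (Sum.inr (Sum.inl v))))) := by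
    refine Multiset.map_congr rfl fun v _ => ?_
    show 2 * (sc (inst M x y) * vZ (inst M x y) -
        (14 * (inst M x y).card + 2 * (4 * M + 1) + 20)) - 0 =
      2 * (sc (ins0 M) * vZ (ins0 M) - (14 * (ins0 M).card + 2 * (4 * M + 1) + 20))
    rw [hsc, hvZ, hcard, Nat.sub_zero]
  have e5 : (Finset.univ : Finset (Fin (n4 (ins0 M)))).val.map
      (fun v => gv M (Sum.inr (Sum.inr (Sum.inr (Sum.inr (Sum.inl v)))))) =
      Multiset.replicate (n4 (ins0 M)) 8 := map_const_fin _ 8
  have e6 : (Finset.univ : Finset (Fin (n3 (ins0 M)))).val.map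
      (fun v => gv M (Sum.inr (Sum.inr (Sum.inr (Sum.inr (Sum.inr v)))))) =
      Multiset.replicate (n3 (ins0 M)) 3 := map_const_fin _ 3
  unfold seqm
  rw [hn4, hn3, map_univ_sum, map_univ_sum, map_univ_sum, map_univ_sum, htr, e1, e2, e3, e4]
  rw [map_univ_sum (Sum.elim (gv M) (wv M x y))]
  simp only [Sum.elim_inl, Sum.elim_inr]
  rw [map_univ_sum (fun a => gv M a), map_univ_sum (fun a => gv M (Sum.inr a)),
    map_univ_sum (fun a => gv M (Sum.inr (Sum.inr a))),
    map_univ_sum (fun a => gv M (Sum.inr (Sum.inr (Sum.inr a)))),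
    map_univ_sum (fun a => gv M (Sum.inr (Sum.inr (Sum.inr (Sum.inr a))))), e5, e6]
  ac_rfl

end Pool.Agent.PDX.H94
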