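import Mathlib
import Pool.Agent.Helper94_PDM.Main
import Pool.Agent.Helper94_PDX.Seq
import Pool.Agent.Helper94_PDX.Fin2
import Pool.Agent.Helper28_PDX.DEC
import Pool.Agent.Helper28_PDX.LEV
import Pool.Agent.Helper31_PDX.Cmb
import Pool.Agent.Helper31_PDX.Rec
import Pool.Agent.Helper84_PDX.Ord
import Pool.Agent.Helper84_PDX.Srt

/-!
# PDX: composition
-/

set_option autoImplicit false

namespace Pool.Agent.PDX.H94

open Pool.Agent.PDX

theorem res2 (mt1 : Mt1Stmt) (mt2 : Mt2Stmt) (inv : InvStmt) (zro : ZroStmt) : Rs2Stmt :=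
  fn2 mt1 mt2 (seq inv) H84.ora H84.orb H84.srt
    (H31.cmb H31.dj3 H31.rec' (H28.dec H28.lev)) zro Pool.Agent.PDM.H69.num
    Pool.Agent.PDM.H94.main

end Pool.Agent.PDX.H94
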