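import Mathlib
import Pool.Agent.PDX.Stmts
import Pool.Agent.Helper72_PDM.SU3

/-!
# PDX, row ZRO: isolated vertices
-/

set_option autoImplicit false

namespace Pool.Agent.PDX.H94

open Pool.Agent.PDN Pool.Agent.PDM Pool.Agent.PDX

theorem nbr_map {V W : Type} (G : SimpleGraph V) (f : V ↪ W) (v : V) :
    Nat.card ((G.map f).neighborSet (f v)) = Nat.card (G.neighborSet v) := by
  symm
  refine Nat.card_congr (Equiv.ofBijective
    (fun u : G.neighborSet v => (⟨f u.1, ?_⟩ : (G.map f).neighborSet (f v))) ⟨?_, ?_⟩)
  · exact (SimpleGraph.map_adj f G _ _).2 ⟨v, u.1, u.2, rfl, rfl⟩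
  · intro a b h
    exact Subtype.ext (f.injective (congrArg Subtype.val h))
  · rintro ⟨w, hw⟩
    obtain ⟨a, b, hab, ha, hb⟩ := (SimpleGraph.map_adj f G _ _).1 hw
    have : a = v := f.injective ha
    subst this
    exact ⟨⟨b, hab⟩, Subtype.ext hb⟩

theorem nbr_out {V W : Type} (G : SimpleGraph V) (f : V ↪ W) (w : W) (hw : w ∉ Set.range f) :
    Nat.card ((G.map f).neighborSet w) = 0 := by
  have : IsEmpty ((G.map f).neighborSet w) := by
    constructor
    rintro ⟨u, hu⟩
    obtain ⟨a, b, hab, ha, hb⟩ := (SimpleGraph.map_adj f G _ _).1 hu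
    exact hw ⟨a, ha⟩
  exact Nat.card_of_isEmpty

theorem zro (map : MapStmt) : ZroStmt := by
  classical
  intro s z hs
  constructor
  · rintro ⟨V, _, G, hG, hd⟩
    obtain ⟨f, hf⟩ : ∃ f : {v : V // Nat.card (G.neighborSet v) ≠ 0} ↪ V, ∀ x, f x = x.1 :=
      ⟨Function.Embedding.subtype _, fun _ => rfl⟩
    have hP : ∀ a b, G.Adj a b → Nat.card (G.neighborSet a) ≠ 0 := by
      intro a b h
      have : Nonempty (G.neighborSet a) := ⟨⟨b, h⟩⟩
      exact Nat.card_pos.ne'
    have hGH : (G.comap f).map f = G := by
      ext a b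
      rw [SimpleGraph.map_adj]
      constructor
      · rintro ⟨u, v, h, rfl, rfl⟩
        exact h
      · intro h
        refine ⟨⟨a, hP a b h⟩, ⟨b, hP b a h.symm⟩, ?_, hf _, hf _⟩
        rw [SimpleGraph.comap_adj, hf, hf]
        exact h
    refine ⟨_, inferInstance, G.comap f, ?_, ?_⟩
    · rw [← hGH] at hG
      exact (map _ _ (G.comap f) f).1 hG
    · have h1 : ∀ v, Nat.card ((G.comap f).neighborSet v) = Nat.card (G.neighborSet v.1) := by
        intro v
        rw [← nbr_map (G.comap f) f v, hGH, hf]
      have h2 : (Finset.univ : Finset {v : V // Nat.card (G.neighborSet v) ≠ 0}).val.map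
          (fun v => Nat.card (G.neighborSet v.1)) =
          (Finset.univ.val.map (fun v : V => Nat.card (G.neighborSet v))).filter
            (fun x => x ≠ 0) := by
        rw [Multiset.filter_map]
        have h3 : (Finset.univ : Finset {v : V // Nat.card (G.neighborSet v) ≠ 0}).val.map
            (fun v => v.1) = (Finset.univ : Finset V).val.filter
              (fun v => Nat.card (G.neighborSet v) ≠ 0) := by
          have h4 := congrArg Finset.val (Finset.subtype_map (s := (Finset.univ : Finset V))
            (fun v => Nat.card (G.neighborSet v) ≠ 0))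
          have h7 : Finset.subtype (fun v => Nat.card (G.neighborSet v) ≠ 0)
              (Finset.univ : Finset V) = Finset.univ := by
            ext x
            simp only [Finset.mem_subtype, Finset.mem_univ]
          rw [Finset.map_val, Finset.filter_val, h7] at h4
          exact h4
        have h5 : (fun v : {v : V // Nat.card (G.neighborSet v) ≠ 0} =>
            Nat.card (G.neighborSet v.1)) =
            (fun v : V => Nat.card (G.neighborSet v)) ∘ (fun v => v.1) := rfl
        rw [h5, ← Multiset.map_map, h3]
        rfl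
      have h6 : (fun v : {v : V // Nat.card (G.neighborSet v) ≠ 0} =>
          Nat.card ((G.comap f).neighborSet v)) = fun v => Nat.card (G.neighborSet v.1) :=
        funext h1
      rw [h6, h2, hd, Multiset.filter_add, Multiset.filter_eq_self.2 hs,
        Multiset.filter_eq_nil.2, add_zero]
      intro x hx
      rw [Multiset.eq_of_mem_replicate hx]
      simp
  · rintro ⟨V, _, G, hG, hd⟩
    refine ⟨V ⊕ Fin z, inferInstance, G.map Function.Embedding.inl, (map _ _ G _).2 hG, ?_⟩
    rw [Pool.Agent.PDM.H72.map_univ_sum]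
    have h1 : ∀ v : V, Nat.card ((G.map (Function.Embedding.inl : V ↪ V ⊕ Fin z)).neighborSet
        (Sum.inl v)) = Nat.card (G.neighborSet v) := fun v => nbr_map G _ v
    have h2 : ∀ k : Fin z, Nat.card ((G.map (Function.Embedding.inl : V ↪ V ⊕ Fin z)).neighborSet
        (Sum.inr k)) = 0 := fun k => nbr_out G _ _ (by
          rintro ⟨a, ha⟩
          exact absurd ha (by simp))
    simp only [h1, h2]
    rw [hd, Multiset.map_const']
    simp

end Pool.Agent.PDX.H94
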